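import Pool.Agent.H749R6.TR.Main
import Pool.Agent.H438R2.DL.App2
import Pool.Agent.Results.MP_31d0eb_nt.AllScales

/-! Primes at all scales above a positive proportion of the multiples of almost every real. -/

set_option autoImplicit false

namespace Pool.Agent.H749R6.TR

open MeasureTheory Filter Topology
open Pool.Agent.H357R2.SI (piS)

/-- primes at all scales above `y` -/
def AS (η K lam y : ℝ) : Prop := ∀ H : ℝ, K * Real.log y ≤ H → H ≤ y / 2 →
  (1 - η) * H / Real.log y ≤ ({p : ℕ | p.Prime ∧ y < p ∧ (p : ℝ) ≤ y + H}.ncard : ℝ) ∧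
  ({p : ℕ | p.Prime ∧ y < p ∧ (p : ℝ) ≤ y + H}.ncard : ℝ) ≤ lam * H / Real.log y

/-- primes at all scales above an integer -/
def AN (η K lam : ℝ) (n : ℕ) : Prop := ∀ H : ℝ, K * Real.log n ≤ H → H ≤ n →
  (1 - η) * H / Real.log n ≤ piS n H ∧ (piS n H : ℝ) ≤ lam * H / Real.log n

theorem piS_ncard (n : ℕ) (H : ℝ) (hH : 0 ≤ H) :
    piS n H = {p : ℕ | p.Prime ∧ n < p ∧ (p : ℝ) ≤ n + H}.ncard := by
  unfold piS
  rw [← Set.ncard_coe_finset]
  congr 1
  ext p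
  rw [Finset.mem_coe, Finset.mem_filter, Finset.mem_Ioc, Nat.floor_natCast,
    Nat.le_floor_iff (by positivity)]
  constructor
  · rintro ⟨⟨h1, h2⟩, h3⟩
    exact ⟨h3, h1, h2⟩
  · rintro ⟨h1, h2, h3⟩
    exact ⟨⟨h2, h3⟩, h1⟩

theorem fin_set (P : ℕ → Prop) (z : ℝ) : {p : ℕ | p.Prime ∧ P p ∧ (p : ℝ) ≤ z}.Finite :=
  (Set.finite_Iic ⌊z⌋₊).subset fun _ hp => Nat.le_floor hp.2.2

theorem loc (η K lam : ℝ) (hη : η < 1) (hK : 0 < K) (hlam : 0 < lam) : ∃ n₁ : ℕ, 3 ≤ n₁ ∧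
    ∀ n : ℕ, n₁ ≤ n → AN η K lam n → ∀ y : ℝ, (n : ℝ) < y → y < n + 1 → AS η K (4 * lam) y := by
  have e1 : ∀ᶠ n : ℕ in atTop, 1 / K ≤ Real.log n :=
    (Real.tendsto_log_atTop.comp tendsto_natCast_atTop_atTop).eventually_ge_atTop _
  obtain ⟨n₀, h₀⟩ := eventually_atTop.1 e1
  refine ⟨max n₀ 3, le_max_right _ _, fun n hn hA y hy1 hy2 H hH1 hH2 => ?_⟩
  have hn3 : 3 ≤ n := (le_max_right _ _).trans hn
  have hn3' : (3 : ℝ) ≤ n := by exact_mod_cast hn3
  have hlogn := h₀ n ((le_max_left _ _).trans hn)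
  have hKlog : 1 ≤ K * Real.log n := by
    rw [div_le_iff₀ hK] at hlogn
    linarith
  have hlog0 : 0 < Real.log n := Real.log_pos (by linarith)
  have hlogy : Real.log n ≤ Real.log y := Real.log_le_log (by linarith) hy1.le
  have hlogy0 : 0 < Real.log y := hlog0.trans_le hlogy
  have hlogy2 : Real.log y ≤ 2 * Real.log n := by
    have h3 : y ≤ (n : ℝ) ^ 2 := by nlinarith
    have h4 : Real.log y ≤ Real.log ((n : ℝ) ^ 2) := Real.log_le_log (by linarith) h3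
    rw [Real.log_pow] at h4
    exact_mod_cast h4
  have hK1 : K * Real.log n ≤ K * Real.log y := mul_le_mul_of_nonneg_left hlogy hK.le
  have hH0 : 1 ≤ H := by linarith
  constructor
  · have h1 := (hA H (by linarith) (by linarith)).1
    have h2 : (1 - η) * H / Real.log y ≤ (1 - η) * H / Real.log n := by
      apply div_le_div_of_nonneg_left _ hlog0 hlogy
      exact mul_nonneg (by linarith) (by linarith)
    refine h2.trans (h1.trans ?_)
    rw [piS_ncard n H (by linarith)]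
    apply Nat.cast_le.2
    apply Set.ncard_le_ncard _ (fin_set _ _)
    rintro p ⟨hp, hp1, hp2⟩
    have h3 : (n : ℝ) + 1 ≤ p := by exact_mod_cast hp1
    exact ⟨hp, by linarith, by linarith⟩
  · have h1 := (hA (H + 1) (by linarith) (by linarith)).2
    have h2 : ({p : ℕ | p.Prime ∧ y < p ∧ (p : ℝ) ≤ y + H}.ncard : ℝ) ≤ piS n (H + 1) := by
      rw [piS_ncard n (H + 1) (by linarith)]
      apply Nat.cast_le.2
      apply Set.ncard_le_ncard _ (fin_set _ _)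
      rintro p ⟨hp, hp1, hp2⟩
      have h3 : (n : ℝ) < p := by linarith
      exact ⟨hp, by exact_mod_cast h3, by linarith⟩
    refine h2.trans (h1.trans ?_)
    rw [div_le_div_iff₀ hlog0 hlogy0]
    calc lam * (H + 1) * Real.log y ≤ lam * (2 * H) * (2 * Real.log n) := by
          gcongr
          linarith
      _ = 4 * lam * H * Real.log n := by ring

theorem allScales (η δ : ℝ) (hη : 0 < η) (hη1 : η < 1) (hδ : 0 < δ) (hδ1 : δ < 1) :
    ∃ K lam c κ : ℝ, 0 < K ∧ 0 < lam ∧ 0 < c ∧ 0 < κ ∧ ∃ Y₀ : ℝ, ∀ Y : ℝ, Y₀ ≤ Y →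
      ∃ E : Set ℝ, MeasurableSet E ∧ volume E ≤ ENNReal.ofReal (Y ^ (1 - κ)) ∧
      ∀ x : ℝ, Y ≤ x → x ≤ 2 * Y → x ∉ E →
        c * Y ^ δ ≤ ({k : ℕ | (k : ℝ) ≤ Y ^ δ ∧ AS η K lam (k * x)}.ncard : ℝ) := by
  classical
  obtain ⟨K, lam, c, hK, hlam, hc, hev⟩ :=
    Pool.Agent.Results.MP_31d0eb_nt.AllScales.result η hη hη1
  obtain ⟨n₁, hn₁3, hn₁⟩ := loc η K lam hη1 hK hlam
  obtain ⟨N₁, hN₁⟩ := eventually_atTop.1 hev
  obtain ⟨N₂, hN₂⟩ := exists_nat_ge ((n₁ : ℝ) / (c / 2))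
  obtain ⟨G, hG⟩ : ∃ G : Set ℕ, G = {n : ℕ | n₁ ≤ n ∧ AN η K lam n} := ⟨_, rfl⟩
  have hcount : ∀ N : ℕ, max N₁ N₂ ≤ N →
      c / 2 * N ≤ ({n : ℕ | n ∈ Finset.Icc 1 N ∧ n ∈ G}.ncard : ℝ) := by
    intro N hN
    have h1 := hN₁ N ((le_max_left _ _).trans hN)
    have hfin : {n : ℕ | n ∈ Finset.Icc 1 N ∧ n ∈ G}.Finite :=
      (Finset.finite_toSet (Finset.Icc 1 N)).subset fun n hn => hn.1
    have h2 : (((Finset.range N).filter (fun n : ℕ => AN η K lam n)).card) ≤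
        {n : ℕ | n ∈ Finset.Icc 1 N ∧ n ∈ G}.ncard + n₁ := by
      have h3 : (((Finset.range N).filter (fun n : ℕ => AN η K lam n) : Finset ℕ) : Set ℕ) ⊆
          {n : ℕ | n ∈ Finset.Icc 1 N ∧ n ∈ G} ∪ ((Finset.range n₁ : Finset ℕ) : Set ℕ) := by
        intro n hn
        rw [Finset.mem_coe, Finset.mem_filter, Finset.mem_range] at hn
        by_cases h4 : n₁ ≤ n
        · left
          refine ⟨Finset.mem_Icc.2 ⟨by omega, by omega⟩, ?_⟩
          rw [hG]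
          exact ⟨h4, hn.2⟩
        · right
          rw [Finset.mem_coe, Finset.mem_range]
          omega
      have h5 := Set.ncard_le_ncard h3 (hfin.union (Finset.finite_toSet _))
      rw [Set.ncard_coe_finset] at h5
      refine h5.trans ((Set.ncard_union_le _ _).trans ?_)
      rw [Set.ncard_coe_finset, Finset.card_range]
    have h6 : (((Finset.range N).filter (fun n : ℕ => AN η K lam n)).card : ℝ) ≤
        ({n : ℕ | n ∈ Finset.Icc 1 N ∧ n ∈ G}.ncard : ℝ) + n₁ := by exact_mod_cast h2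
    have h7 : (n₁ : ℝ) ≤ c / 2 * N := by
      have h8 : (N₂ : ℝ) ≤ N := by exact_mod_cast (le_max_right _ _).trans hN
      have h9 := hN₂.trans h8
      rw [div_le_iff₀ (by positivity)] at h9
      linarith
    have h1' : c * N ≤ (((Finset.range N).filter (fun n : ℕ => AN η K lam n)).card : ℝ) := by
      refine h1.trans (le_of_eq ?_)
      congr 2
    linarith
  obtain ⟨c', κ, hc', hκ, Y₀, h⟩ := transfer Pool.Agent.H438R2.DL.pairs_asymp G (AS η K (4 * lam))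
    (fun g hg => by
      rw [hG] at hg
      exact hn₁ g hg.1 hg.2) (c / 2) (by positivity) (max N₁ N₂) hcount δ hδ hδ1
  exact ⟨K, 4 * lam, c', κ, hK, by positivity, hc', hκ, Y₀, h⟩

end Pool.Agent.H749R6.TR
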